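import Pool.Agent.Helper16.FDG.G16

/-!
# The conjecture of Ayala and Francis: flagged `(∞,n)`-categories as descent presheaves
-/

set_option autoImplicit false

namespace Pool.Agent.Results.MP_e8a4f2_al.FlaggedDescent

theorem result : ∀ n : ℕ, FLQ.Conjecture n := Pool.Agent.Helper43.FLQB.conjecture

end Pool.Agent.Results.MP_e8a4f2_al.FlaggedDescent
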